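import Pool.Agent.Lib.MP_0b721b_ag.StF

/-!
Uniform Fujita vanishing on the fibres of a projective family.
-/

namespace Pool.Agent.Results.MP_0b721b_ag.UniformFujita

open Pool.Agent.Lib.MP_0b721b_ag.St

universe u

/-- Uniform Fujita vanishing. `A` is a noetherian ring, `X = V(I)` a closed subscheme of the
projective space over `A`, `L` a line bundle on `X` which is ample on all fibres `X_s`, `s` in
`Spec A`, and `F` the coherent sheaf on `X` given by the graded module `A[x] ^ r / W` killed by
`I`. There is `m₀` such that for all fields `k` over `A` (in particular all residue fields of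
points of `Spec A`), all nef line bundles `M` on `X_k`, all `m ≥ m₀` and all `p ≥ 1` we have
`H^p (X_k, F ⊗ L ^ m ⊗ M) = 0`. -/
theorem result {A : Type u} [CommRing A] [IsNoetherianRing A] {N : ℕ}
    (I : Ideal (MvPolynomial (Fin N) A)) (hI : IsHom (Hom A N) I)
    {α : Type} [LinearOrder α] [Fintype α] (L : Bun (MvPolynomial (Fin N) A) α)
    (hL : IsBun (Hom A N) MvPolynomial.X L I)
    (hample : ∀ s : PrimeSpectrum A, IsAmple (Hom s.asIdeal.ResidueField N)
      (base (MvPolynomial.map (algebraMap A s.asIdeal.ResidueField)) L)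
      (I.map (MvPolynomial.map (algebraMap A s.asIdeal.ResidueField))))
    {r : ℕ} (e : Fin r → ℤ)
    (W : Submodule (MvPolynomial (Fin N) A) (Fin r → MvPolynomial (Fin N) A))
    (hW : IsHom (HomV A N e) W)
    (hIW : ∀ a ∈ I, ∀ v : Fin r → MvPolynomial (Fin N) A, a • v ∈ W) :
    ∃ m₀ : ℕ, ∀ (k : Type u) [Field k] (ψ : A →+* k) (β : Type) [LinearOrder β] [Fintype β]
      (M : Bun (MvPolynomial (Fin N) k) β),
      IsBun (Hom k N) MvPolynomial.X M (I.map (MvPolynomial.map ψ)) →
      IsNef k (Hom k N) MvPolynomial.X M (I.map (MvPolynomial.map ψ)) →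
      ∀ m, m₀ ≤ m → ∀ p, 1 ≤ p →
      Vanish (HomV k N e) (tensor (pow (base (MvPolynomial.map ψ) L) m) M) (baseW ψ W) 0 p :=
  final I hI L hL hample e W hW hIW

end Pool.Agent.Results.MP_0b721b_ag.UniformFujita
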